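import Mathlib

set_option autoImplicit false

universe w w' v v' u u'

open CategoryTheory CategoryTheory.Limits CategoryTheory.Abelian

namespace Pool.Agent.R388.CD

variable {C : Type u} [Category.{v} C] [Abelian C]

theorem epi_of_qis {K : HomologicalComplex C (ComplexShape.up ℤ)} {X : C}
    (s : K ⟶ (HomologicalComplex.single C (ComplexShape.up ℤ) 0).obj X) [QuasiIso s]
    (p : K.cycles 0 ⟶ X)
    (hp : (HomologicalComplex.single C (ComplexShape.up ℤ) 0).map p =
      (HomologicalComplex.mkHomFromSingle (K.iCycles 0) (fun k _ => by simp) :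
        (HomologicalComplex.single C (ComplexShape.up ℤ) 0).obj (K.cycles 0) ⟶ K) ≫ s) :
    Epi p := by
  obtain ⟨c, hc⟩ : ∃ c : (HomologicalComplex.single C (ComplexShape.up ℤ) 0).obj (K.cycles 0) ⟶ K,
    c = HomologicalComplex.mkHomFromSingle (K.iCycles 0) (fun k _ => by simp) := ⟨_, rfl⟩
  rw [← hc] at hp
  have h1 : HomologicalComplex.cyclesMap c 0 =
      (HomologicalComplex.singleObjCyclesSelfIso (ComplexShape.up ℤ) 0 (K.cycles 0)).hom := by
    rw [← cancel_mono (K.iCycles 0), HomologicalComplex.cyclesMap_i, hc,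
      HomologicalComplex.mkHomFromSingle_f, HomologicalComplex.singleObjCyclesSelfIso_hom,
      Category.assoc]
  have h2 : Epi (HomologicalComplex.homologyMap c 0) := by
    have h3 : HomologicalComplex.homologyπ _ 0 ≫ HomologicalComplex.homologyMap c 0 =
        HomologicalComplex.cyclesMap c 0 ≫ K.homologyπ 0 :=
      HomologicalComplex.homologyπ_naturality _ _
    have h4 : Epi (HomologicalComplex.cyclesMap c 0 ≫ K.homologyπ 0) := by
      rw [h1]; infer_instance
    exact epi_of_epi_fac h3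
  have h5 : Epi (HomologicalComplex.homologyMap (c ≫ s) 0) := by
    rw [HomologicalComplex.homologyMap_comp]
    infer_instance
  rw [← hp] at h5
  have h6 := HomologicalComplex.singleObjHomologySelfIso_hom_naturality (c := ComplexShape.up ℤ)
    (j := (0 : ℤ)) p
  have h7 : Epi (HomologicalComplex.homologyMap
      ((HomologicalComplex.single C (ComplexShape.up ℤ) 0).map p) 0 ≫
      (HomologicalComplex.singleObjHomologySelfIso (ComplexShape.up ℤ) 0 X).hom) := by
    infer_instance
  rw [h6] at h7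
  have h8 : (HomologicalComplex.singleObjHomologySelfIso (ComplexShape.up ℤ) 0 (K.cycles 0)).inv ≫
      ((HomologicalComplex.singleObjHomologySelfIso (ComplexShape.up ℤ) 0 (K.cycles 0)).hom ≫ p) =
      p := by simp
  rw [← h8]
  exact epi_comp _ _

open DerivedCategory in
/-- Every class in `Ext^{n+1}(X, Y)` is killed by an epimorphism `E → X`. -/
theorem exists_epi_comp_eq_zero [HasExt.{w} C] {X Y : C} {n : ℕ} (e : Ext.{w} X Y (n + 1)) :
    ∃ (E : C) (p : E ⟶ X), Epi p ∧ (Ext.mk₀ p).comp e (zero_add (n + 1)) = 0 := by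
  let _ := HasDerivedCategory.standard C
  -- the target of `e.hom` is the image of the single complex in degree `-(n+1)`
  let i : ((singleFunctor C 0).obj Y)⟦((n + 1 : ℕ) : ℤ)⟧ ≅
      (singleFunctor C (-((n + 1 : ℕ) : ℤ))).obj Y :=
    ((singleFunctors C).shiftIso ((n + 1 : ℕ) : ℤ) (-((n + 1 : ℕ) : ℤ)) 0 (by simp)).app Y
  obtain ⟨K, s, hs, g, hg⟩ := right_fac
    (X := (CochainComplex.singleFunctor C 0).obj X)
    (Y := (CochainComplex.singleFunctor C (-((n + 1 : ℕ) : ℤ))).obj Y)
    (show _ ⟶ _ from e.hom ≫ i.hom)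
  let c : (CochainComplex.singleFunctor C 0).obj (K.cycles 0) ⟶ K :=
    HomologicalComplex.mkHomFromSingle (K.iCycles 0) (fun k _ => by simp)
  obtain ⟨p, hp⟩ := (CochainComplex.singleFunctor C 0).map_surjective (c ≫ s)
  have hq : QuasiIso s := (isIso_Q_map_iff_quasiIso C s).1 hs
  refine ⟨K.cycles 0, p, @epi_of_qis C _ _ K X s hq p hp, ?_⟩
  have hcg : c ≫ g = 0 := by
    apply HomologicalComplex.from_single_hom_ext
    have hz : IsZero (((CochainComplex.singleFunctor C (-((n + 1 : ℕ) : ℤ))).obj Y).X 0) :=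
      HomologicalComplex.isZero_single_obj_X _ _ _ _ (by push_cast; omega)
    exact hz.eq_of_tgt _ _
  apply Ext.ext
  rw [Ext.comp_hom, Ext.mk₀_hom, Ext.zero_hom, ShiftedHom.mk₀_comp]
  rw [← cancel_mono i.hom, zero_comp, Category.assoc]
  have h1 : (singleFunctor C 0).map p = Q.map (c ≫ s) := by
    rw [← hp]; rfl
  rw [h1]
  have h2 : Q.map (c ≫ s) ≫ (e.hom ≫ i.hom) = Q.map (c ≫ s) ≫ inv (Q.map s) ≫ Q.map g := by
    rw [← hg]; rfl
  refine h2.trans ?_
  rw [Functor.map_comp, Category.assoc, IsIso.hom_inv_id_assoc, ← Functor.map_comp, hcg,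
    Functor.map_zero]
  rfl

end Pool.Agent.R388.CD
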