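import Pool.Agent.R388.CD.Main

set_option autoImplicit false

open CategoryTheory CategoryTheory.Limits CategoryTheory.Abelian

namespace Pool.Agent.R388.CD

section Group

variable {F : Type} [Field F] {G : Type} [Group G] (S : Subgroup G)
  (P : ObjectProperty (Rep.{0} F G)) (Q : ObjectProperty (Rep.{0} F S))

theorem down [CharZero F] [S.FiniteIndex] [IsRepClass P] [IsRepClass Q]
    (hres : ∀ V, P V → Q ((Res F S).obj V)) (hcoi : ∀ W, Q W → P ((Coi F S).obj W)) {n : ℕ}
    (h : ∀ X Y : Q.FullSubcategory, ExtVanish X Y n) :
    ∀ X Y : P.FullSubcategory, ExtVanish X Y n := by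
  have := coiR (F := F) S
  let _ : HasExt.{1} P.FullSubcategory := HasExt.standard _
  let _ : HasExt.{1} Q.FullSubcategory := HasExt.standard _
  exact vanish_of_unit (lft P Q (Res F S) hres) (lft Q P (Coi F S) hcoi)
    { app := fun X => P.homMk ((unitNat S).app X.obj)
      naturality := fun X Y f => by
        apply P.ι.map_injective
        exact (unitNat S).naturality f.hom }
    (fun Y => ⟨P.homMk (avg S Y.obj), by
      apply P.ι.map_injective
      exact unit_avg S Y.obj⟩) h

theorem up [S.FiniteIndex] [IsRepClass P] [IsRepClass Q]
    (hres : ∀ V, P V → Q ((Res F S).obj V)) (hcoi : ∀ W, Q W → P ((Coi F S).obj W)) {n : ℕ}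
    (h : ∀ X Y : P.FullSubcategory, ExtVanish X Y n) :
    ∀ X Y : Q.FullSubcategory, ExtVanish X Y n := by
  have := coiR (F := F) S
  let _ : HasExt.{1} P.FullSubcategory := HasExt.standard _
  let _ : HasExt.{1} Q.FullSubcategory := HasExt.standard _
  exact vanish_of_counit (lft Q P (Coi F S) hcoi) (lft P Q (Res F S) hres)
    { app := fun X => Q.homMk ((counitNat S).app X.obj)
      naturality := fun X Y f => by
        apply Q.ι.map_injective
        exact (counitNat S).naturality f.hom }
    (fun Y => ⟨Q.homMk (supp S Y.obj), by
      apply Q.ι.map_injective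
      exact supp_counit S Y.obj⟩) h

theorem transfer [CharZero F] [S.FiniteIndex] [IsRepClass P] [IsRepClass Q]
    (hres : ∀ V, P V → Q ((Res F S).obj V)) (hcoi : ∀ W, Q W → P ((Coi F S).obj W)) (n : ℕ) :
    (∃ X Y : Q.FullSubcategory, ¬ ExtVanish X Y n) ↔
      ∃ X Y : P.FullSubcategory, ¬ ExtVanish X Y n := by
  constructor
  · rintro ⟨X, Y, h⟩
    by_contra hc
    exact h (up S P Q hres hcoi (fun X' Y' => by
      by_contra h'
      exact hc ⟨X', Y', h'⟩) X Y)
  · rintro ⟨X, Y, h⟩
    by_contra hc
    exact h (down S P Q hres hcoi (fun X' Y' => by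
      by_contra h'
      exact hc ⟨X', Y', h'⟩) X Y)

/-- The dimension is an additive length function. -/
theorem rep_devissage [IsRepClass P] (hfd : ∀ V, P V → FiniteDimensional F V) {n : ℕ}
    (h : ∀ X Y : P.FullSubcategory, Simple X → Simple Y → ExtVanish X Y n) :
    ∀ X Y : P.FullSubcategory, ExtVanish X Y n := by
  refine devissage (fun X => Module.finrank F X.obj.V) ?_ ?_ h
  · intro T hT
    have h1 := exactL P
    have h2 := exactR P
    have h3 : (T.map P.ι).ShortExact := hT.map_of_exact P.ι
    have h4 : ((T.map P.ι).map (forget₂ (Rep.{0} F G) (ModuleCat F))).ShortExact :=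
      h3.map_of_exact _
    have := hfd _ T.X₁.property
    have := hfd _ T.X₂.property
    have := hfd _ T.X₃.property
    set M := (T.map P.ι).map (forget₂ (Rep.{0} F G) (ModuleCat F)) with hM
    have hinj : Function.Injective M.f.hom := (ModuleCat.mono_iff_injective _).1 h4.mono_f
    have hsur : Function.Surjective M.g.hom := (ModuleCat.epi_iff_surjective _).1 h4.epi_g
    have hex : LinearMap.range M.f.hom = LinearMap.ker M.g.hom :=
      (ShortComplex.moduleCat_exact_iff_range_eq_ker M).1 h4.exact
    have e1 : Module.finrank F M.X₁ = Module.finrank F (LinearMap.range M.f.hom) :=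
      (LinearMap.finrank_range_of_inj hinj).symm
    have e3 : Module.finrank F (LinearMap.range M.g.hom) = Module.finrank F M.X₃ := by
      rw [LinearMap.range_eq_top.2 hsur, finrank_top]
    have : FiniteDimensional F M.X₂ := hfd _ T.X₂.property
    have e2 := LinearMap.finrank_range_add_finrank_ker M.g.hom
    have e4 : Module.finrank F M.X₂ = Module.finrank F M.X₁ + Module.finrank F M.X₃ := by
      rw [e1, hex, ← e3, ← e2, add_comm]
    exact e4
  · intro X hX
    have := hfd _ X.property
    have h1 : Subsingleton X.obj.V := Module.finrank_zero_iff.1 hX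
    have h2 : IsZero X.obj := (Rep.isZero_iff F G X.obj).2 h1
    rw [IsZero.iff_id_eq_zero] at h2 ⊢
    apply P.ι.map_injective
    exact h2

end Group

section Systems

/-- The category of representations of the group `G` on `F`-vector spaces. -/
def Rp (F : Type) [Field F] (G : Type) [Group G] : Type 1 := Rep.{0} F G

noncomputable instance catRp (F : Type) [Field F] (G : Type) [Group G] : Category.{0} (Rp F G) :=
  (inferInstance : Category.{0} (Rep.{0} F G))

noncomputable instance abRp (F : Type) [Field F] (G : Type) [Group G] : Abelian (Rp F G) :=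
  (inferInstance : Abelian (Rep.{0} F G))

/-- The representation `V` is finite-dimensional. -/
def IsFD {F : Type} [Field F] {G : Type} [Group G] (V : Rp F G) : Prop :=
  FiniteDimensional F (Rep.V (k := F) (G := G) V)

/-- Restriction of representations from `G` to the subgroup `S`. -/
noncomputable def restr {F : Type} [Field F] {G : Type} [Group G] (S : Subgroup G) (V : Rp F G) :
    Rp F S :=
  (Rep.resFunctor.{0} (k := F) S.subtype).obj V

/-- Induction of representations from the subgroup `S` (of finite index) to `G`: the space of all
functions `f : G → W` with `f(s g) = s f(g)` for `s ∈ S`, with `G` acting by right translation. -/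
noncomputable def induc {F : Type} [Field F] {G : Type} [Group G] (S : Subgroup G) (W : Rp F S) :
    Rp F G :=
  (Rep.coindFunctor.{0} F S.subtype).obj W

/-- A system of categories of finite-dimensional representations of the group `G` and of the
subgroups `U i` of `G`: each of them contains `0` and is stable under subobjects, quotients and
finite products; restriction maps the category for `G` to the one for `U i`, and induction maps the
category for `U i` to the one for `G`. -/
structure RepSystem (F : Type) [Field F] {G : Type} [Group G] {I : Type}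
    (U : I → Subgroup G) where
  /-- the representations of `G` which belong to the category for `G` -/
  base : ObjectProperty (Rp F G)
  /-- the representations of `U i` which belong to the category for `U i` -/
  cat : ∀ i : I, ObjectProperty (Rp F (U i))
  base_fd : ∀ V, base V → IsFD V
  base_class : IsRepClass base
  cat_class : ∀ i, IsRepClass (cat i)
  res : ∀ i V, base V → cat i (restr (U i) V)
  ind : ∀ i W, cat i W → base (induc (U i) W)

attribute [instance] RepSystem.base_class RepSystem.cat_class

/-- `Ext^n` is not identically zero in the abelian category of objects with property `P`. -/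
def ExtNonzero {A : Type 1} [Category.{0} A] [Abelian A] (P : ObjectProperty A) [IsRepClass P]
    (n : ℕ) : Prop :=
  ∃ X Y : P.FullSubcategory, ¬ ExtVanish X Y n

/-- The cohomological dimension of the abelian category of objects with property `P`. -/
noncomputable def dim {A : Type 1} [Category.{0} A] [Abelian A] (P : ObjectProperty A)
    [IsRepClass P] : ℕ∞ := cohDim P.FullSubcategory

/-- `Ext^n(X, Y) = 0` for all irreducible objects `X`, `Y` of the abelian category of objects with
property `P`. -/
def ExtZeroOnSimples {A : Type 1} [Category.{0} A] [Abelian A] (P : ObjectProperty A)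
    [IsRepClass P] (n : ℕ) : Prop :=
  ∀ X Y : P.FullSubcategory, Simple X → Simple Y → ExtVanish X Y n

variable {F : Type} [Field F] [CharZero F] {G : Type} [Group G] {I : Type} {U : I → Subgroup G}
  (R : RepSystem F U)

theorem sys_transfer (i : I) [(U i).FiniteIndex] (n : ℕ) :
    ExtNonzero (R.cat i) n ↔ ExtNonzero R.base n :=
  @transfer F _ G _ (U i) R.base (R.cat i) _ _ R.base_class (R.cat_class i)
    (R.res i) (R.ind i) n

theorem sys_cohDim (i : I) [(U i).FiniteIndex] : dim (R.cat i) = dim R.base := by
  unfold dim cohDim
  congr 1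
  funext n
  have := sys_transfer R i n
  unfold ExtNonzero at this
  rw [this]

theorem sys_one_iff (i : I) [(U i).FiniteIndex] :
    dim (R.cat i) = 1 ↔ ExtNonzero R.base 1 ∧ ExtZeroOnSimples R.base 2 := by
  rw [sys_cohDim]
  unfold dim
  rw [cohDim_eq_one_iff]
  refine and_congr_right fun _ => ⟨fun h X Y _ _ => h X Y, fun h => ?_⟩
  exact @rep_devissage F _ G _ R.base R.base_class R.base_fd 2 h

end Systems

section NumberFields

/-- A fixed algebraic closure of `ℚ`. -/
abbrev Qbar : Type := AlgebraicClosure ℚ

theorem finIndex (k : IntermediateField ℚ Qbar) (_ : FiniteDimensional ℚ k) :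
    k.fixingSubgroup.FiniteIndex := by
  have h' : IsAlgClosure ℚ Qbar := ⟨inferInstance, AlgebraicClosure.isAlgebraic ℚ⟩
  have h0 : IsGalois ℚ Qbar := IsAlgClosure.isGalois ℚ Qbar
  have h1 : IsOpen (k.fixingSubgroup : Set (Qbar ≃ₐ[ℚ] Qbar)) := k.fixingSubgroup_isOpen
  have h3 : CompactSpace (Qbar ≃ₐ[ℚ] Qbar) := inferInstanceAs (CompactSpace Gal(Qbar/ℚ))
  have h2 : Finite ((Qbar ≃ₐ[ℚ] Qbar) ⧸ k.fixingSubgroup) :=
    Subgroup.quotient_finite_of_isOpen _ h1
  exact Subgroup.finiteIndex_of_finite_quotient

/-- The absolute Galois group of `ℚ`. -/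
def GQ : Type := Qbar ≃ₐ[ℚ] Qbar

noncomputable instance grpGQ : Group GQ := (inferInstance : Group (Qbar ≃ₐ[ℚ] Qbar))

/-- The number fields contained in `Qbar`. -/
def NF : Type := {k : IntermediateField ℚ Qbar // FiniteDimensional ℚ k}

/-- The absolute Galois group of the number field `k`, a subgroup of the one of `ℚ`. -/
noncomputable def gal (k : NF) : Subgroup GQ := k.1.fixingSubgroup

instance (k : NF) : (gal k).FiniteIndex := finIndex k.1 k.2

end NumberFields

end Pool.Agent.R388.CD
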