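import Pool.Agent.R388.CD.Reps

set_option autoImplicit false

universe w w' v v' u u'

open CategoryTheory CategoryTheory.Limits CategoryTheory.Abelian

namespace Pool.Agent.R388.CD

section General

variable {C : Type u} [Category.{v} C] [Abelian C]

/-- `Ext^n(X, Y) = 0` in the abelian category `C`. -/
def ExtVanish (X Y : C) (n : ℕ) : Prop :=
  let _ : HasExt.{max u v} C := HasExt.standard C
  ∀ e : Ext.{max u v} X Y n, e = 0

/-- The cohomological dimension of the abelian category `C`: the supremum of all `n` such that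
`Ext^n(X, Y) ≠ 0` for some objects `X`, `Y`. -/
noncomputable def cohDim (C : Type u) [Category.{v} C] [Abelian C] : ℕ∞ :=
  ⨆ (n : ℕ) (_ : ∃ X Y : C, ¬ ExtVanish X Y n), (n : ℕ∞)

theorem extVanish_succ {n : ℕ} (h : ∀ X Y : C, ExtVanish X Y n) :
    ∀ X Y : C, ExtVanish X Y (n + 1) := by
  let _ : HasExt.{max u v} C := HasExt.standard C
  exact vanish_succ (C := C) h

theorem extVanish_of_le {m n : ℕ} (hmn : m ≤ n) (h : ∀ X Y : C, ExtVanish X Y m) :
    ∀ X Y : C, ExtVanish X Y n := by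
  induction n, hmn using Nat.le_induction with
  | base => exact h
  | succ n _ ih => exact extVanish_succ ih

theorem cohDim_eq_one_iff : cohDim C = 1 ↔
    (∃ X Y : C, ¬ ExtVanish X Y 1) ∧ ∀ X Y : C, ExtVanish X Y 2 := by
  constructor
  · intro h
    have h2 : ∀ X Y : C, ExtVanish X Y 2 := by
      intro X Y
      by_contra hc
      have : ((2 : ℕ) : ℕ∞) ≤ cohDim C :=
        le_iSup₂ (f := fun (n : ℕ) (_ : ∃ X Y : C, ¬ ExtVanish X Y n) => (n : ℕ∞)) 2 ⟨X, Y, hc⟩
      rw [h] at this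
      exact absurd this (by norm_cast)
    refine ⟨?_, h2⟩
    by_contra hc
    have h1 : ∀ X Y : C, ExtVanish X Y 1 := by
      intro X Y
      by_contra h'
      exact hc ⟨X, Y, h'⟩
    have : cohDim C ≤ 0 := by
      refine iSup₂_le ?_
      rintro n ⟨X, Y, hn⟩
      rcases Nat.eq_zero_or_pos n with rfl | h0
      · simp
      · exact absurd (extVanish_of_le h0 h1 X Y) hn
    rw [h] at this
    exact absurd this (by norm_num)
  · rintro ⟨⟨X, Y, h1⟩, h2⟩
    refine le_antisymm ?_ ?_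
    · refine iSup₂_le ?_
      rintro n ⟨X', Y', hn⟩
      by_contra hc
      have : 2 ≤ n := by
        have h3 : (1 : ℕ∞) < n := not_le.1 hc
        have h4 : 1 < n := by exact_mod_cast h3
        omega
      exact hn (extVanish_of_le this h2 X' Y')
    · exact le_iSup₂ (f := fun (n : ℕ) (_ : ∃ X Y : C, ¬ ExtVanish X Y n) => (n : ℕ∞)) 1 ⟨X, Y, h1⟩

theorem ext_of_isZero_left [HasExt.{w} C] {X Y : C} {n : ℕ} (hX : IsZero X) (e : Ext.{w} X Y n) :
    e = 0 := by
  have h1 : (Ext.mk₀ (𝟙 X)).comp e (zero_add n) = e := Ext.mk₀_id_comp e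
  rw [← h1, hX.eq_of_src (𝟙 X) 0, Ext.mk₀_zero, Ext.zero_comp]

theorem ext_of_isZero_right [HasExt.{w} C] {X Y : C} {n : ℕ} (hY : IsZero Y) (e : Ext.{w} X Y n) :
    e = 0 := by
  have h1 : e.comp (Ext.mk₀ (𝟙 Y)) (add_zero n) = e := Ext.comp_mk₀_id e
  rw [← h1, hY.eq_of_src (𝟙 Y) 0, Ext.mk₀_zero, Ext.comp_zero]

/-- A nonzero object which is not simple is an extension of two nonzero objects. -/
theorem exists_sub {X : C} (h0 : ¬ IsZero X) (hX : ¬ Simple X) :
    ∃ S : ShortComplex C, S.ShortExact ∧ S.X₂ = X ∧ ¬ IsZero S.X₁ ∧ ¬ IsZero S.X₃ := by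
  have h1 : ∃ (Z : C) (f : Z ⟶ X), Mono f ∧ ¬ (IsIso f ↔ f ≠ 0) := by
    by_contra hc
    exact hX ⟨fun {Z} f hf => by
      by_contra h'
      exact hc ⟨Z, f, hf, h'⟩⟩
  obtain ⟨Z, f, hf, h2⟩ := h1
  have h3 : f ≠ 0 := by
    rintro rfl
    apply h2
    refine iff_of_false ?_ (by simp)
    intro hi
    apply h0
    rw [IsZero.iff_id_eq_zero]
    rw [← cancel_epi (0 : Z ⟶ X)]
    simp
  have h4 : ¬ IsIso f := fun h5 => h2 (iff_of_true h5 h3)
  refine ⟨ShortComplex.mk f (cokernel.π f) (cokernel.condition f),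
    { exact := ShortComplex.exact_of_g_is_cokernel _ (cokernelIsCokernel f)
      mono_f := hf
      epi_g := inferInstanceAs (Epi (cokernel.π f)) }, rfl, ?_, ?_⟩
  · intro hz
    exact h3 (IsZero.eq_of_src hz f 0)
  · intro hz
    apply h4
    have h5 : cokernel.π f = 0 := IsZero.eq_of_tgt hz _ _
    have h6 : Epi f := Preadditive.epi_of_cokernel_zero h5
    exact isIso_of_mono_of_epi f

/-- Devissage: if there is an additive length function, the vanishing of `Ext^n` can be checked on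
simple objects. -/
theorem devissage (d : C → ℕ) (hd : ∀ S : ShortComplex C, S.ShortExact → d S.X₂ = d S.X₁ + d S.X₃)
    (hz : ∀ X : C, d X = 0 → IsZero X) {n : ℕ}
    (h : ∀ X Y : C, Simple X → Simple Y → ExtVanish X Y n) :
    ∀ X Y : C, ExtVanish X Y n := by
  let _ : HasExt.{max u v} C := HasExt.standard C
  have key : ∀ (m : ℕ) (Y : C), Simple Y → ∀ X : C, d X ≤ m → ∀ e : Ext.{max u v} X Y n, e = 0 := by
    intro m
    induction m with
    | zero => exact fun Y _ X hX e => ext_of_isZero_left (hz X (by omega)) e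
    | succ m ih =>
      intro Y hY X hX e
      by_cases h0 : IsZero X
      · exact ext_of_isZero_left h0 e
      by_cases hs : Simple X
      · exact h X Y hs hY e
      obtain ⟨S, hS, rfl, h1, h3⟩ := exists_sub h0 hs
      have hd' := hd S hS
      have hd1 : d S.X₁ ≠ 0 := fun hc => h1 (hz _ hc)
      have hd3 : d S.X₃ ≠ 0 := fun hc => h3 (hz _ hc)
      obtain ⟨e', rfl⟩ := Ext.contravariant_sequence_exact₂ hS Y e
        (ih Y hY S.X₁ (by omega) _)
      rw [ih Y hY S.X₃ (by omega) e', Ext.comp_zero]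
  have key2 : ∀ (m : ℕ) (X Y : C), d Y ≤ m → ∀ e : Ext.{max u v} X Y n, e = 0 := by
    intro m
    induction m with
    | zero => exact fun X Y hY e => ext_of_isZero_right (hz Y (by omega)) e
    | succ m ih =>
      intro X Y hY e
      by_cases h0 : IsZero Y
      · exact ext_of_isZero_right h0 e
      by_cases hs : Simple Y
      · exact key _ Y hs X le_rfl e
      obtain ⟨S, hS, rfl, h1, h3⟩ := exists_sub h0 hs
      have hd' := hd S hS
      have hd1 : d S.X₁ ≠ 0 := fun hc => h1 (hz _ hc)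
      have hd3 : d S.X₃ ≠ 0 := fun hc => h3 (hz _ hc)
      obtain ⟨e', rfl⟩ := Ext.covariant_sequence_exact₂ X hS e
        (ih X S.X₃ (by omega) _)
      rw [ih X S.X₁ (by omega) e', Ext.zero_comp]
  exact fun X Y => key2 _ X Y le_rfl

end General

end Pool.Agent.R388.CD
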