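import Pool.Agent.R388.CD.Sub

set_option autoImplicit false

open CategoryTheory CategoryTheory.Limits CategoryTheory.Abelian

namespace Pool.Agent.R388.CD

variable {F : Type} [Field F] {G : Type} [Group G] (S : Subgroup G)

noncomputable section

/-- restriction from `G` to `S` -/
abbrev Res (F : Type) [Field F] {G : Type} [Group G] (S : Subgroup G) :
    Rep.{0} F G ⥤ Rep.{0} F S := Rep.resFunctor.{0} S.subtype

/-- coinduction (= induction, if the index is finite) from `S` to `G` -/
abbrev Coi (F : Type) [Field F] {G : Type} [Group G] (S : Subgroup G) :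
    Rep.{0} F S ⥤ Rep.{0} F G := Rep.coindFunctor.{0} F S.subtype

instance : (Coi F S).Additive where
  map_add {X Y f g} := by
    ext x
    rfl

instance : PreservesFiniteLimits (Coi F S) := by
  have : (Coi F S).IsRightAdjoint := (Rep.resCoindAdjunction.{0} F S.subtype).isRightAdjoint
  infer_instance

theorem coiR [S.FiniteIndex] : PreservesFiniteColimits (Coi F S) := by
  classical
  have : (Coi F S).IsLeftAdjoint := (Rep.coindResAdjunction.{0} F S).isLeftAdjoint
  infer_instance

/-- The unit `V → Coind Res V`. -/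
def unitNat : 𝟭 (Rep.{0} F G) ⟶ Res F S ⋙ Coi F S := (Rep.resCoindAdjunction.{0} F S.subtype).unit

/-- The counit `Res Coind W → W`. -/
def counitNat : Coi F S ⋙ Res F S ⟶ 𝟭 (Rep.{0} F S) :=
  (Rep.resCoindAdjunction.{0} F S.subtype).counit

theorem unit_apply (V : Rep.{0} F G) (v : V) (g : G) :
    (((unitNat S).app V).hom v : (Rep.coind S.subtype (Rep.res S.subtype V) : Rep F G).V).1 g =
      V.ρ g v := rfl

theorem counit_apply (W : Rep.{0} F S) (f : (Rep.coind S.subtype W : Rep F G).V) :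
    (((counitNat S).app W).hom f : W.V) = f.1 1 := rfl

/-- The `G ⧸ S`-family of vectors of `V` attached to an element of `Coind Res V`. -/
def fam (V : Rep.{0} F G) (f : (Rep.coind S.subtype (Rep.res S.subtype V) : Rep F G).V) :
    G ⧸ S → V.V :=
  Quotient.lift (fun g : G => V.ρ g (f.1 g⁻¹)) (by
    intro a b hab
    have hab' : a⁻¹ * b ∈ S := QuotientGroup.leftRel_apply.1 hab
    have h1 := f.2 (⟨a⁻¹ * b, hab'⟩ : S) b⁻¹
    have h2 : S.subtype ⟨a⁻¹ * b, hab'⟩ * b⁻¹ = a⁻¹ := by simp
    rw [h2] at h1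
    show V.ρ a (f.1 a⁻¹) = V.ρ b (f.1 b⁻¹)
    rw [h1]
    show V.ρ a (V.ρ (a⁻¹ * b) (f.1 b⁻¹)) = _
    rw [← Module.End.mul_apply, ← map_mul, mul_inv_cancel_left])

theorem fam_mk (V : Rep.{0} F G) (f : (Rep.coind S.subtype (Rep.res S.subtype V) : Rep F G).V)
    (g : G) : fam S V f (QuotientGroup.mk g) = V.ρ g (f.1 g⁻¹) := rfl

theorem fam_add (V : Rep.{0} F G) (f f' : (Rep.coind S.subtype (Rep.res S.subtype V) : Rep F G).V)
    (q : G ⧸ S) : fam S V (f + f') q = fam S V f q + fam S V f' q := by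
  obtain ⟨g, rfl⟩ := QuotientGroup.mk_surjective q
  rw [fam_mk, fam_mk, fam_mk, ← map_add]
  rfl

theorem fam_smul (V : Rep.{0} F G) (c : F)
    (f : (Rep.coind S.subtype (Rep.res S.subtype V) : Rep F G).V)
    (q : G ⧸ S) : fam S V (c • f) q = c • fam S V f q := by
  obtain ⟨g, rfl⟩ := QuotientGroup.mk_surjective q
  rw [fam_mk, fam_mk, ← map_smul]
  rfl

theorem fam_rho (V : Rep.{0} F G) (h : G)
    (f : (Rep.coind S.subtype (Rep.res S.subtype V) : Rep F G).V)
    (q : G ⧸ S) :
    fam S V ((Rep.coind S.subtype (Rep.res S.subtype V) : Rep F G).ρ h f) q =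
      V.ρ h (fam S V f (h⁻¹ • q)) := by
  obtain ⟨g, rfl⟩ := QuotientGroup.mk_surjective q
  have h1 : h⁻¹ • (QuotientGroup.mk g : G ⧸ S) = QuotientGroup.mk (h⁻¹ * g) := rfl
  rw [h1, fam_mk, fam_mk]
  rw [← Module.End.mul_apply, ← map_mul, mul_inv_cancel_left, mul_inv_rev, inv_inv]
  rfl

/-- The averaging map `Coind Res V → V`. -/
def avg [S.FiniteIndex] (V : Rep.{0} F G) :
    (Res F S ⋙ Coi F S).obj V ⟶ V :=
  letI : Fintype (G ⧸ S) := Fintype.ofFinite _
  Rep.ofHom ⟨
    { toFun := fun f => ((Fintype.card (G ⧸ S) : F))⁻¹ • ∑ q : G ⧸ S, fam S V f q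
      map_add' := by
        intro f f'
        rw [← smul_add, ← Finset.sum_add_distrib]
        congr 1
        exact Finset.sum_congr rfl (fun q _ => fam_add S V f f' q)
      map_smul' := by
        intro c f
        have h1 : ∑ q : G ⧸ S, fam S V (c • f) q = c • ∑ q : G ⧸ S, fam S V f q := by
          rw [Finset.smul_sum]
          exact Finset.sum_congr rfl (fun q _ => fam_smul S V c f q)
        rw [h1, smul_comm]
        rfl }, by
    intro h
    ext f
    show ((Fintype.card (G ⧸ S) : F))⁻¹ • ∑ q : G ⧸ S,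
        fam S V ((Rep.coind S.subtype (Rep.res S.subtype V) : Rep F G).ρ h f) q =
      V.ρ h (((Fintype.card (G ⧸ S) : F))⁻¹ • ∑ q : G ⧸ S, fam S V f q)
    rw [map_smul, map_sum]
    congr 1
    rw [← Equiv.sum_comp (MulAction.toPerm h⁻¹ : Equiv.Perm (G ⧸ S))
      (fun q => V.ρ h (fam S V f q))]
    exact Finset.sum_congr rfl (fun q _ => fam_rho S V h f q)⟩

theorem unit_avg [CharZero F] [S.FiniteIndex] (V : Rep.{0} F G) :
    (unitNat S).app V ≫ avg S V = 𝟙 V := by
  let _ : Fintype (G ⧸ S) := Fintype.ofFinite _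
  ext v
  show ((Fintype.card (G ⧸ S) : F))⁻¹ • ∑ q : G ⧸ S, fam S V (((unitNat S).app V).hom v) q = v
  have h1 : ∀ q : G ⧸ S, fam S V (((unitNat S).app V).hom v) q = v := by
    intro q
    obtain ⟨g, rfl⟩ := QuotientGroup.mk_surjective q
    rw [fam_mk]
    show V.ρ g (V.ρ g⁻¹ v) = v
    rw [← Module.End.mul_apply, ← map_mul, mul_inv_cancel, map_one]
    rfl
  rw [Finset.sum_congr rfl (fun q _ => h1 q), Finset.sum_const, Finset.card_univ,
    ← Nat.cast_smul_eq_nsmul F, smul_smul, inv_mul_cancel₀, one_smul]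
  exact Nat.cast_ne_zero.2 Fintype.card_ne_zero

open Classical in
/-- The map `W → Res Coind W` which sends `w` to the function supported on `S`. -/
def supp (W : Rep.{0} F S) : W ⟶ (Coi F S ⋙ Res F S).obj W :=
  Rep.ofHom ⟨
    { toFun := fun w => ⟨fun g => if h : g ∈ S then W.ρ ⟨g, h⟩ w else 0, by
        intro s g
        by_cases h : g ∈ S
        · have h' : S.subtype s * g ∈ S := S.mul_mem s.2 h
          show (if h : S.subtype s * g ∈ S then W.ρ ⟨_, h⟩ w else 0) =
            W.ρ s (if h : g ∈ S then W.ρ ⟨g, h⟩ w else 0)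
          rw [dif_pos h, dif_pos h', ← Module.End.mul_apply, ← map_mul]
          rfl
        · have h' : S.subtype s * g ∉ S := fun h2 => h ((S.mul_mem_cancel_left s.2).1 h2)
          show (if h : S.subtype s * g ∈ S then W.ρ ⟨_, h⟩ w else 0) =
            W.ρ s (if h : g ∈ S then W.ρ ⟨g, h⟩ w else 0)
          rw [dif_neg h, dif_neg h', map_zero]⟩
      map_add' := by
        intro w w'
        apply Subtype.ext
        funext g
        by_cases h : g ∈ S
        · show (if h : g ∈ S then W.ρ ⟨g, h⟩ (w + w') else 0) =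
            (if h : g ∈ S then W.ρ ⟨g, h⟩ w else 0) + (if h : g ∈ S then W.ρ ⟨g, h⟩ w' else 0)
          rw [dif_pos h, dif_pos h, dif_pos h, map_add]
        · show (if h : g ∈ S then W.ρ ⟨g, h⟩ (w + w') else 0) =
            (if h : g ∈ S then W.ρ ⟨g, h⟩ w else 0) + (if h : g ∈ S then W.ρ ⟨g, h⟩ w' else 0)
          rw [dif_neg h, dif_neg h, dif_neg h, add_zero]
      map_smul' := by
        intro c w
        apply Subtype.ext
        funext g
        by_cases h : g ∈ S
        · show (if h : g ∈ S then W.ρ ⟨g, h⟩ (c • w) else 0) =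
            c • (if h : g ∈ S then W.ρ ⟨g, h⟩ w else 0)
          rw [dif_pos h, dif_pos h, map_smul]
        · show (if h : g ∈ S then W.ρ ⟨g, h⟩ (c • w) else 0) =
            c • (if h : g ∈ S then W.ρ ⟨g, h⟩ w else 0)
          rw [dif_neg h, dif_neg h, smul_zero] }, by
    intro s
    ext w
    apply Subtype.ext
    funext g
    show (if h : g ∈ S then W.ρ ⟨g, h⟩ (W.ρ s w) else 0) =
      (if h : g * S.subtype s ∈ S then W.ρ ⟨_, h⟩ w else 0)
    by_cases h : g ∈ S
    · have h' : g * S.subtype s ∈ S := S.mul_mem h s.2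
      rw [dif_pos h, dif_pos h', ← Module.End.mul_apply, ← map_mul]
      rfl
    · have h' : g * S.subtype s ∉ S := fun h2 => h ((S.mul_mem_cancel_right s.2).1 h2)
      rw [dif_neg h, dif_neg h']⟩

open Classical in
theorem supp_counit (W : Rep.{0} F S) : supp S W ≫ (counitNat S).app W = 𝟙 W := by
  ext w
  show (if h : (1 : G) ∈ S then W.ρ ⟨1, h⟩ w else 0) = w
  rw [dif_pos S.one_mem]
  have : (⟨1, S.one_mem⟩ : S) = 1 := rfl
  rw [this, map_one]
  rfl

end

end Pool.Agent.R388.CD
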