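import Pool.Agent.R388.CD.Transfer

set_option autoImplicit false

universe w w' v v' u u'

open CategoryTheory CategoryTheory.Limits CategoryTheory.Abelian

namespace Pool.Agent.R388.CD

/-- A class of objects of an abelian category which contains the zero object and is stable under
subobjects, quotients and finite products. Its objects form an abelian category. -/
class IsRepClass {C : Type u} [Category.{v} C] [Abelian C] (P : ObjectProperty C) : Prop extends
  P.ContainsZero, P.IsClosedUnderSubobjects, P.IsClosedUnderQuotients,
  P.IsClosedUnderFiniteProducts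

section

variable {C : Type u} [Category.{v} C] [Abelian C] {D : Type u'} [Category.{v'} D] [Abelian D]
  (P : ObjectProperty C) [IsRepClass P] (Q : ObjectProperty D) [IsRepClass Q]

example : Abelian P.FullSubcategory := inferInstance

instance : P.ι.Additive where
  map_add := rfl

theorem exactL : PreservesFiniteLimits P.ι := by
  have : ∀ {X Y : P.FullSubcategory} (f : X ⟶ Y), PreservesLimit (parallelPair f 0) P.ι :=
    fun f => P.preservesKernels_ι f
  exact Functor.preservesFiniteLimits_of_preservesKernels P.ι

theorem exactR : PreservesFiniteColimits P.ι := by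
  have : ∀ {X Y : P.FullSubcategory} (f : X ⟶ Y), PreservesColimit (parallelPair f 0) P.ι :=
    fun f => P.preservesCokernels_ι f
  exact Functor.preservesFiniteColimits_of_preservesCokernels P.ι

/-- The functor induced on the full subcategories by a functor which maps `P` to `Q`. -/
def lft (F : C ⥤ D) (h : ∀ X, P X → Q (F.obj X)) : P.FullSubcategory ⥤ Q.FullSubcategory :=
  Q.lift (P.ι ⋙ F) (fun X => h _ X.property)

instance (F : C ⥤ D) [F.Additive] (h : ∀ X, P X → Q (F.obj X)) : (lft P Q F h).Additive where
  map_add {X Y f g} := by
    apply Q.ι.map_injective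
    exact F.map_add

instance lftL (F : C ⥤ D) [PreservesFiniteLimits F] (h : ∀ X, P X → Q (F.obj X)) :
    PreservesFiniteLimits (lft P Q F h) := by
  have := exactL P
  have h1 : PreservesFiniteLimits (lft P Q F h ⋙ Q.ι) :=
    inferInstanceAs (PreservesFiniteLimits (P.ι ⋙ F))
  exact preservesFiniteLimits_of_reflects_of_preserves _ Q.ι

instance lftR (F : C ⥤ D) [PreservesFiniteColimits F] (h : ∀ X, P X → Q (F.obj X)) :
    PreservesFiniteColimits (lft P Q F h) := by
  have := exactR P
  have h1 : PreservesFiniteColimits (lft P Q F h ⋙ Q.ι) :=
    inferInstanceAs (PreservesFiniteColimits (P.ι ⋙ F))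
  exact preservesFiniteColimits_of_reflects_of_preserves _ Q.ι

end

end Pool.Agent.R388.CD
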