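import Pool.Agent.R388.CD.Efface

set_option autoImplicit false

universe w w' v v' u u'

open CategoryTheory CategoryTheory.Limits CategoryTheory.Abelian

namespace Pool.Agent.R388.CD

variable {C : Type u} [Category.{v} C] [Abelian C] [HasExt.{w} C]

/-- Every class in `Ext^{n+1}` is a Yoneda product of the class of a short exact sequence and of a
class in `Ext^n`. -/
theorem exists_extClass_comp {X Y : C} {n : ℕ} (e : Ext.{w} X Y (n + 1)) :
    ∃ (K E : C) (f : K ⟶ E) (p : E ⟶ X) (h : f ≫ p = 0)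
      (hS : (ShortComplex.mk f p h).ShortExact) (e' : Ext.{w} K Y n),
      hS.extClass.comp e' (add_comm 1 n) = e := by
  obtain ⟨E, p, hp, h0⟩ := exists_epi_comp_eq_zero e
  have hS : (ShortComplex.mk (kernel.ι p) p (kernel.condition p)).ShortExact :=
    { exact := ShortComplex.exact_of_f_is_kernel _ (kernelIsKernel p)
      mono_f := inferInstanceAs (Mono (kernel.ι p))
      epi_g := hp }
  obtain ⟨e', he'⟩ := Ext.contravariant_sequence_exact₃ hS Y e h0 (add_comm 1 n)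
  exact ⟨kernel p, E, kernel.ι p, p, kernel.condition p, hS, e', he'⟩

/-- If `Ext^n` vanishes for all objects, so does `Ext^{n+1}`. -/
theorem vanish_succ {n : ℕ} (h : ∀ X Y : C, ∀ e : Ext.{w} X Y n, e = 0) :
    ∀ X Y : C, ∀ e : Ext.{w} X Y (n + 1), e = 0 := by
  intro X Y e
  obtain ⟨K, E, f, p, h0, hS, e', rfl⟩ := exists_extClass_comp e
  rw [h _ _ e', Ext.comp_zero]

variable {D : Type u'} [Category.{v'} D] [Abelian D] [HasExt.{w'} D]
  (T : C ⥤ D) (U : D ⥤ C) [T.Additive] [PreservesFiniteLimits T] [PreservesFiniteColimits T]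
  [U.Additive] [PreservesFiniteLimits U] [PreservesFiniteColimits U]

theorem step_unit (ι : 𝟭 C ⟶ T ⋙ U) {n : ℕ} {Y : C} (S : ShortComplex C) (hS : S.ShortExact)
    (e' : Ext.{w} S.X₁ Y n)
    (ih : e'.comp (Ext.mk₀ (ι.app Y)) (add_zero n) =
      (Ext.mk₀ (ι.app S.X₁)).comp ((e'.mapExactFunctor T).mapExactFunctor U) (zero_add n)) :
    (hS.extClass.comp e' (add_comm 1 n)).comp (Ext.mk₀ (ι.app Y)) (add_zero (n + 1)) =
      (Ext.mk₀ (ι.app S.X₃)).comp
        (((hS.extClass.comp e' (add_comm 1 n)).mapExactFunctor T).mapExactFunctor U)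
        (zero_add (n + 1)) := by
  have h1 : hS.extClass.comp (Ext.mk₀ (ι.app S.X₁)) (add_zero 1) =
      (Ext.mk₀ (ι.app S.X₃)).comp ((hS.extClass.mapExactFunctor T).mapExactFunctor U)
        (zero_add 1) := by
    have h2 := ShortComplex.ShortExact.extClass_naturality hS
      ((hS.map_of_exact T).map_of_exact U)
      { τ₁ := ι.app S.X₁, τ₂ := ι.app S.X₂, τ₃ := ι.app S.X₃
        comm₁₂ := (ι.naturality S.f).symm
        comm₂₃ := (ι.naturality S.g).symm }
    have h3 : ((hS.map_of_exact T).map_of_exact U).extClass =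
        (hS.extClass.mapExactFunctor T).mapExactFunctor U :=
      ((congrArg (Ext.mapExactFunctor U) (Ext.mapExactFunctor_extClass T hS)).trans
        (Ext.mapExactFunctor_extClass U (hS.map_of_exact T))).symm
    exact h2.trans (congrArg (fun t => (Ext.mk₀ (ι.app S.X₃)).comp t (zero_add 1)) h3)
  rw [Ext.mapExactFunctor_comp, Ext.mapExactFunctor_comp, Ext.comp_assoc_of_third_deg_zero, ih]
  have h4 : hS.extClass.comp ((Ext.mk₀ (ι.app S.X₁)).comp
      ((e'.mapExactFunctor T).mapExactFunctor U) (zero_add n)) (add_comm 1 n) =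
      (hS.extClass.comp (Ext.mk₀ (ι.app S.X₁)) (add_zero 1)).comp
      ((e'.mapExactFunctor T).mapExactFunctor U) (add_comm 1 n) :=
    (Ext.comp_assoc_of_second_deg_zero _ _ _ _).symm
  rw [h4, h1]
  exact Ext.comp_assoc _ _ _ (zero_add 1) (add_comm 1 n) (by omega)

theorem nat_unit (ι : 𝟭 C ⟶ T ⋙ U) {n : ℕ} : ∀ {X Y : C} (e : Ext.{w} X Y n),
    e.comp (Ext.mk₀ (ι.app Y)) (add_zero n) =
      (Ext.mk₀ (ι.app X)).comp ((e.mapExactFunctor T).mapExactFunctor U) (zero_add n) := by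
  induction n with
  | zero =>
    intro X Y e
    obtain ⟨f, rfl⟩ := (Ext.mk₀_bijective X Y).2 e
    rw [Ext.mapExactFunctor_mk₀, Ext.mapExactFunctor_mk₀]
    refine (Ext.mk₀_comp_mk₀ _ _).trans (Eq.trans ?_ (Ext.mk₀_comp_mk₀ _ _).symm)
    exact congrArg Ext.mk₀ (ι.naturality f)
  | succ n ih =>
    intro X Y e
    obtain ⟨K, E, f, p, h0, hS, e', rfl⟩ := exists_extClass_comp e
    exact step_unit T U ι (ShortComplex.mk f p h0) hS e' (ih e')

theorem step_counit (π : T ⋙ U ⟶ 𝟭 C) {n : ℕ} {Y : C} (S : ShortComplex C) (hS : S.ShortExact)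
    (e' : Ext.{w} S.X₁ Y n)
    (ih : ((e'.mapExactFunctor T).mapExactFunctor U).comp (Ext.mk₀ (π.app Y)) (add_zero n) =
      (Ext.mk₀ (π.app S.X₁)).comp e' (zero_add n)) :
    (((hS.extClass.comp e' (add_comm 1 n)).mapExactFunctor T).mapExactFunctor U).comp
      (Ext.mk₀ (π.app Y)) (add_zero (n + 1)) =
      (Ext.mk₀ (π.app S.X₃)).comp (hS.extClass.comp e' (add_comm 1 n)) (zero_add (n + 1)) := by
  have h1 : ((hS.extClass.mapExactFunctor T).mapExactFunctor U).comp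
      (Ext.mk₀ (π.app S.X₁)) (add_zero 1) =
      (Ext.mk₀ (π.app S.X₃)).comp hS.extClass (zero_add 1) := by
    have h2 := ShortComplex.ShortExact.extClass_naturality
      ((hS.map_of_exact T).map_of_exact U) hS
      { τ₁ := π.app S.X₁, τ₂ := π.app S.X₂, τ₃ := π.app S.X₃
        comm₁₂ := (π.naturality S.f).symm
        comm₂₃ := (π.naturality S.g).symm }
    have h3 : ((hS.map_of_exact T).map_of_exact U).extClass =
        (hS.extClass.mapExactFunctor T).mapExactFunctor U :=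
      ((congrArg (Ext.mapExactFunctor U) (Ext.mapExactFunctor_extClass T hS)).trans
        (Ext.mapExactFunctor_extClass U (hS.map_of_exact T))).symm
    exact (congrArg (fun t => Ext.comp t (Ext.mk₀ (π.app S.X₁)) (add_zero 1)) h3).symm.trans h2
  rw [Ext.mapExactFunctor_comp, Ext.mapExactFunctor_comp]
  refine (Ext.comp_assoc_of_third_deg_zero _ _ _ _).trans ?_
  rw [ih]
  refine (Ext.comp_assoc_of_second_deg_zero _ _ _ _).symm.trans ?_
  rw [h1]
  exact Ext.comp_assoc _ _ _ (zero_add 1) (add_comm 1 n) (by omega)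

theorem nat_counit (π : T ⋙ U ⟶ 𝟭 C) {n : ℕ} : ∀ {X Y : C} (e : Ext.{w} X Y n),
    ((e.mapExactFunctor T).mapExactFunctor U).comp (Ext.mk₀ (π.app Y)) (add_zero n) =
      (Ext.mk₀ (π.app X)).comp e (zero_add n) := by
  induction n with
  | zero =>
    intro X Y e
    obtain ⟨f, rfl⟩ := (Ext.mk₀_bijective X Y).2 e
    rw [Ext.mapExactFunctor_mk₀, Ext.mapExactFunctor_mk₀]
    refine (Ext.mk₀_comp_mk₀ _ _).trans (Eq.trans ?_ (Ext.mk₀_comp_mk₀ _ _).symm)
    exact congrArg Ext.mk₀ (π.naturality f)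
  | succ n ih =>
    intro X Y e
    obtain ⟨K, E, f, p, h0, hS, e', rfl⟩ := exists_extClass_comp e
    exact step_counit T U π (ShortComplex.mk f p h0) hS e' (ih e')

/-- If the identity functor is naturally a pointwise direct summand of `T ⋙ U`, then vanishing of
`Ext^n` passes from `D` to `C`. -/
theorem vanish_of_unit (ι : 𝟭 C ⟶ T ⋙ U)
    (hι : ∀ Y : C, ∃ r : (T ⋙ U).obj Y ⟶ Y, ι.app Y ≫ r = 𝟙 Y) {n : ℕ}
    (h : ∀ X Y : D, ∀ e : Ext.{w'} X Y n, e = 0) :
    ∀ X Y : C, ∀ e : Ext.{w} X Y n, e = 0 := by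
  intro X Y e
  obtain ⟨r, hr⟩ := hι Y
  have h1 := nat_unit T U ι e
  rw [h _ _ (e.mapExactFunctor T), Ext.mapExactFunctor_zero, Ext.comp_zero] at h1
  have h2 : (e.comp (Ext.mk₀ (ι.app Y)) (add_zero n)).comp (Ext.mk₀ r) (add_zero n) = 0 := by
    rw [h1, Ext.zero_comp]
  rw [Ext.comp_assoc_of_third_deg_zero] at h2
  have h3 : (Ext.mk₀ (ι.app Y)).comp (Ext.mk₀ r) (add_zero 0) = Ext.mk₀ (𝟙 Y) :=
    (Ext.mk₀_comp_mk₀ _ _).trans (congrArg Ext.mk₀ hr)
  rw [h3, Ext.comp_mk₀_id] at h2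
  exact h2

theorem vanish_of_counit (π : T ⋙ U ⟶ 𝟭 C)
    (hπ : ∀ X : C, ∃ s : X ⟶ (T ⋙ U).obj X, s ≫ π.app X = 𝟙 X) {n : ℕ}
    (h : ∀ X Y : D, ∀ e : Ext.{w'} X Y n, e = 0) :
    ∀ X Y : C, ∀ e : Ext.{w} X Y n, e = 0 := by
  intro X Y e
  obtain ⟨s, hs⟩ := hπ X
  have h1 := nat_counit T U π e
  rw [h _ _ (e.mapExactFunctor T), Ext.mapExactFunctor_zero, Ext.zero_comp] at h1
  have h2 : (Ext.mk₀ s).comp ((Ext.mk₀ (π.app X)).comp e (zero_add n)) (zero_add n) = 0 := by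
    rw [← h1, Ext.comp_zero]
  have h3 : (Ext.mk₀ s).comp (Ext.mk₀ (π.app X)) (add_zero 0) = Ext.mk₀ (𝟙 X) :=
    (Ext.mk₀_comp_mk₀ _ _).trans (congrArg Ext.mk₀ hs)
  rw [← Ext.comp_assoc_of_second_deg_zero, h3, Ext.mk₀_id_comp] at h2
  exact h2

end Pool.Agent.R388.CD
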